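import Pool.Agent.Q278.SX.E

/-!
# Two supercongruences at `-9/16` and the form `L² + 27 M²`

For every prime `p = 1 mod 3` and `4p = L² + 27M²`, `L = 2 mod 3`, the sums
`∑_{k<p} C(-1/3,k) C(-1/6,k) (-9/16)^k` and `∑_{k<p} C(-2/3,k) C(-5/6,k) (-9/16)^k` are both
congruent to `L - p/L` modulo `p²`.
-/

set_option autoImplicit false

namespace Pool.Agent.Results.MP_ffaf6e_nt.Full

open Finset

/-- the binomial coefficient `a (a - 1) ... (a - k + 1) / k!` -/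
def gbinom (a : ℚ) (k : ℕ) : ℚ := (∏ i ∈ range k, (a - (i : ℚ))) / (k.factorial : ℚ)

/-- the sum `S₁(p)` -/
def S₁ (p : ℕ) : ℚ := ∑ k ∈ range p, gbinom (-1 / 3) k * gbinom (-1 / 6) k * (-9 / 16) ^ k

/-- the sum `S₂(p)` -/
def S₂ (p : ℕ) : ℚ := ∑ k ∈ range p, gbinom (-2 / 3) k * gbinom (-5 / 6) k * (-9 / 16) ^ k

/-- congruence modulo `p²` of rational numbers with denominators prime to `p` -/
def Cong (p : ℕ) (u v : ℚ) : Prop := ¬ p ∣ u.den ∧ ¬ p ∣ v.den ∧ (p : ℤ) ^ 2 ∣ (u - v).num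

open Pool.Agent.Q278.YC Pool.Agent.Q267.CDE Q278.PI Pool.Agent.Q278.SX

theorem gbinom_prod (a b c : ℚ) (k : ℕ) : gbinom a k * gbinom b k * c ^ k =
    ∏ i ∈ range k, ((a - i) * (b - i) * c / ((i : ℚ) + 1) ^ 2) := by
  induction k with
  | zero => simp [gbinom]
  | succ k ih =>
    have h1 : ((k : ℚ) + 1) ≠ 0 := by positivity
    have h2 : ((k.factorial : ℕ) : ℚ) ≠ 0 := by exact_mod_cast k.factorial_ne_zero
    rw [prod_range_succ, ← ih]
    unfold gbinom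
    rw [prod_range_succ, prod_range_succ, Nat.factorial_succ]
    push_cast
    field_simp
    ring

/-- numerators -/
def nS (a b : ℤ) (i : ℕ) : ℤ := -((3 * i + a) * (6 * i + b))

theorem sum_coe {p r : ℕ} [Fact p.Prime] (hr : p = 6 * r + 1) (a b : ℤ) :
    (((∑ k ∈ range p, PO p (nS a b) dH k : O p)) : ℚ) =
      ∑ k ∈ range p, gbinom (-(a : ℚ) / 3) k * gbinom (-(b : ℚ) / 6) k * (-9 / 16) ^ k := by
  rw [AddSubmonoidClass.coe_finsetSum]
  refine sum_congr rfl fun k hk => ?_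
  rw [mem_range] at hk
  rw [PO_coe p _ _ k fun i hi => dH_nd hr i (by omega), gbinom_prod]
  refine prod_congr rfl fun i _ => ?_
  have h1 : ((i : ℚ) + 1) ≠ 0 := by positivity
  unfold nS dH
  push_cast
  field_simp
  ring

theorem sum_res {p r : ℕ} [Fact p.Prime] (hr : p = 6 * r + 1) (a b : ℤ) (y e : R p)
    (hy : 6 * y = 1) (he : 8 * e = 1) :
    res2 p (∑ k ∈ range p, PO p (nS a b) dH k) =
      Hs p (2 * a * y) (b * y) (-36 * e ^ 2) 0 0 0 0 := by
  unfold Hs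
  rw [map_sum]
  refine sum_congr rfl fun k hk => ?_
  rw [mem_range] at hk
  refine tm_PO _ _ _ _ _ 0 0 0 0 (fun i hi => dH_nd hr i hi) (fun i _ => ?_) k hk
  unfold nS dH
  push_cast
  linear_combination (-18 * (8 * e + 1) * (2 * a * y + i) * (b * y + i) * ((i : R p) + 1) ^ 2) * he
    - (((i : R p) + 1) ^ 2 * (a * (6 * (b * y + i)) + b * (3 * i + a))) * hy

/-- **The two supercongruences modulo `p²` at `-9/16`.** -/
theorem result (p : ℕ) (hp : p.Prime) (h3 : p % 3 = 1) (L M : ℤ)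
    (h4 : 4 * (p : ℤ) = L ^ 2 + 27 * M ^ 2) (hL : L % 3 = 2) :
    Cong p (S₁ p) ((L : ℚ) - (p : ℚ) / (L : ℚ)) ∧ Cong p (S₂ p) ((L : ℚ) - (p : ℚ) / (L : ℚ)) ∧
      Cong p (S₁ p) (S₂ p) := by
  have : Fact p.Prime := ⟨hp⟩
  obtain ⟨r, hr⟩ : ∃ r, p = 6 * r + 1 := by
    have h5 : p % 2 = 1 := hp.eq_two_or_odd.resolve_left (by
      rintro rfl
      omega)
    exact ⟨p / 6, by omega⟩
  have hL' : (3 : ℤ) ∣ L - 2 := by omega
  have hnd := L_nd hr L M h4 hL'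
  obtain ⟨y, hy⟩ := exists_y (p := p) hr
  have he := res2_invI p 8 (eight_nd' hr)
  push_cast at he
  obtain ⟨v1, v2⟩ := values hr y _ hy he
  have e1 : S₁ p = ((∑ k ∈ range p, PO p (nS 1 1) dH k : O p) : ℚ) := by
    rw [sum_coe hr]
    unfold S₁
    norm_num
  have e2 : S₂ p = ((∑ k ∈ range p, PO p (nS 2 5) dH k : O p) : ℚ) := by
    rw [sum_coe hr]
    unfold S₂
    norm_num
  have g1 : res2 p (∑ k ∈ range p, PO p (nS 1 1) dH k) = CC p r := by
    rw [sum_res hr 1 1 y _ hy he, ← v1]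
    congr 1 <;> push_cast <;> ring
  have g2 : res2 p (∑ k ∈ range p, PO p (nS 2 5) dH k) = CC p r := by
    rw [sum_res hr 2 5 y _ hy he, ← v2]
    congr 1 <;> push_cast <;> ring
  have e3 : (L : ℚ) - (p : ℚ) / (L : ℚ) = (((L : O p) - (p : O p) * invI p L : O p) : ℚ) := by
    push_cast
    rw [invI_coe p L hnd]
    rfl
  have g3 : res2 p ((L : O p) - (p : O p) * invI p L) = CC p r := by
    rw [map_sub, map_mul, map_intCast, map_natCast]
    obtain ⟨-, c2⟩ := CC_rel hr L M h4 hL'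
    have h7 := res2_invI p L hnd
    have hu := isUnit_int p L hnd
    apply hu.mul_left_cancel
    linear_combination -c2 - (p : R p) * h7
  rw [e1, e2, e3]
  have m1 := (∑ k ∈ range p, PO p (nS 1 1) dH k : O p).2
  have m2 := (∑ k ∈ range p, PO p (nS 2 5) dH k : O p).2
  have m3 := ((L : O p) - (p : O p) * invI p L : O p).2
  exact ⟨⟨m1, m3, cong_of_res2 p _ _ (g1.trans g3.symm)⟩,
    ⟨m2, m3, cong_of_res2 p _ _ (g2.trans g3.symm)⟩,
    ⟨m1, m2, cong_of_res2 p _ _ (g1.trans g2.symm)⟩⟩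

end Pool.Agent.Results.MP_ffaf6e_nt.Full
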